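import Mathlib
import Pool.Agent.V1119.Comp

/-!
A finitely generated right reversible cancellative monoid whose group of right quotients has
solvable word problem and which has undecidable membership problem in this group.
-/

set_option autoImplicit false

namespace Pool.Agent.Results.MP_91a774_al.Undecidable

open Pool.Agent.V1119.Comp

section construction

variable {A : Type} [Group A]

/-- the exchange of the two coordinates -/
def sw : MulAut (A × A) := MulEquiv.prodComm

/-- the integers acting through the exchange -/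
def act : Multiplicative ℤ →* MulAut (A × A) := zpowersHom (MulAut (A × A)) sw

/-- the group `(A × A) ⋊ ℤ` -/
abbrev Gr (A : Type) [Group A] : Type := (A × A) ⋊[act (A := A)] Multiplicative ℤ

/-- the generator of the integers -/
def z : Gr A := SemidirectProduct.inr (Multiplicative.ofAdd 1)

lemma z_conj (p : A × A) : (z : Gr A) * SemidirectProduct.inl p * z⁻¹ =
    SemidirectProduct.inl (p.2, p.1) := by
  have h := SemidirectProduct.inl_aut (φ := act (A := A)) (Multiplicative.ofAdd 1) p
  rw [map_inv] at h
  rw [z, ← h]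
  simp [act, sw, Prod.swap]

/-- level of an element -/
def level (g : Gr A) : ℤ := Multiplicative.toAdd g.right

lemma level_mul (g h : Gr A) : level (g * h) = level g + level h := rfl

lemma level_one : level (1 : Gr A) = 0 := rfl

variable (N : Submonoid A)

/-- The submonoid `A × N` in level zero together with all elements of positive level. -/
def Pp : Submonoid (Gr A) where
  carrier := {g | 0 < level g ∨ (level g = 0 ∧ g.left.2 ∈ N)}
  one_mem' := Or.inr ⟨rfl, N.one_mem⟩
  mul_mem' := by
    rintro g h (hg | ⟨hg, hg2⟩) (hh | ⟨hh, hh2⟩)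
    · left; change 0 < level (g * h); rw [level_mul]; omega
    · left; change 0 < level (g * h); rw [level_mul]; omega
    · left; change 0 < level (g * h); rw [level_mul]; omega
    · right
      refine ⟨by rw [level_mul, hg, hh, add_zero], ?_⟩
      have h1 : g.right = 1 := hg
      rw [SemidirectProduct.mul_left, h1, map_one]
      exact mul_mem hg2 hh2

variable {j l : ℕ} (y : Fin j → A) (t : Fin l → A)

/-- index type of the generators -/
abbrev Idx (j l : ℕ) : Type := (Fin j × Bool) ⊕ (Fin l ⊕ Unit)

/-- the generators of the monoid -/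
def gen : Idx j l → Gr A
  | Sum.inl c => SemidirectProduct.inl (cond c.2 (y c.1) (y c.1)⁻¹, 1)
  | Sum.inr (Sum.inl i) => SemidirectProduct.inl (1, t i)
  | Sum.inr (Sum.inr _) => z

lemma inl_fst_mem (hy : Function.Surjective (FreeGroup.lift y)) (a : A) :
    (SemidirectProduct.inl (a, 1) : Gr A) ∈ Submonoid.closure (Set.range (gen y t)) := by
  obtain ⟨g, rfl⟩ := hy a
  induction g using FreeGroup.induction_on with
  | C1 =>
    rw [map_one]
    exact one_mem _
  | of i =>
    rw [FreeGroup.lift_apply_of]
    exact Submonoid.subset_closure ⟨Sum.inl (i, true), rfl⟩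
  | inv_of i h =>
    rw [map_inv, FreeGroup.lift_apply_of]
    exact Submonoid.subset_closure ⟨Sum.inl (i, false), rfl⟩
  | mul x y hx hy =>
    have h1 := mul_mem hx hy
    rw [← map_mul] at h1
    rw [map_mul]
    convert h1 using 2
    simp

lemma inl_snd_mem (n : A) (hn : n ∈ Submonoid.closure (Set.range t)) :
    (SemidirectProduct.inl (1, n) : Gr A) ∈ Submonoid.closure (Set.range (gen y t)) := by
  induction hn using Submonoid.closure_induction with
  | mem x hx =>
    obtain ⟨i, rfl⟩ := hx
    exact Submonoid.subset_closure ⟨Sum.inr (Sum.inl i), rfl⟩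
  | one => exact one_mem _
  | mul a b _ _ ha hb =>
    have h1 := mul_mem ha hb
    rw [← map_mul] at h1
    convert h1 using 2
    simp

lemma closure_gen (hy : Function.Surjective (FreeGroup.lift y)) :
    Submonoid.closure (Set.range (gen y t)) = Pp (Submonoid.closure (Set.range t)) := by
  apply le_antisymm
  · rw [Submonoid.closure_le]
    rintro _ ⟨c, rfl⟩
    rcases c with c | i | u
    · exact Or.inr ⟨rfl, one_mem _⟩
    · exact Or.inr ⟨rfl, Submonoid.subset_closure ⟨i, rfl⟩⟩
    · exact Or.inl Int.one_pos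
  · rintro ⟨⟨p, q⟩, n⟩ hg
    have hz : (z : Gr A) ∈ Submonoid.closure (Set.range (gen y t)) :=
      Submonoid.subset_closure ⟨Sum.inr (Sum.inr ()), rfl⟩
    rcases hg with hg | ⟨hg, hg2⟩
    · -- positive level
      have hg' : 0 < Multiplicative.toAdd n := hg
      obtain ⟨k, hk⟩ : ∃ k : ℕ, Multiplicative.toAdd n = k + 1 :=
        ⟨(Multiplicative.toAdd n - 1).toNat, by omega⟩
      have e : (⟨(p, q), n⟩ : Gr A) = SemidirectProduct.inl (p, 1) *
          (z * SemidirectProduct.inl (q, 1) * z ^ k) := by
        have e1 : (⟨(p, q), n⟩ : Gr A) = SemidirectProduct.inl (p, q) * SemidirectProduct.inr n := by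
          exact (SemidirectProduct.inl_left_mul_inr_right (⟨(p, q), n⟩ : Gr A)).symm
        have e2 : (SemidirectProduct.inr n : Gr A) = z ^ (k + 1) := by
          rw [z, ← map_pow, ← ofAdd_nsmul]
          congr 1
          rw [← ofAdd_toAdd n, hk]
          simp
        have e3 : (SemidirectProduct.inl (p, q) : Gr A) =
            SemidirectProduct.inl (p, 1) * SemidirectProduct.inl (1, q) := by
          rw [← map_mul]; simp
        have e4 := z_conj (q, (1 : A))
        simp only at e4
        rw [e1, e2, e3, ← e4, pow_succ']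
        group
      rw [e]
      exact mul_mem (inl_fst_mem y t hy p) (mul_mem (mul_mem hz (inl_fst_mem y t hy q))
        (pow_mem hz k))
    · have hg' : n = 1 := hg
      subst hg'
      have e : (⟨(p, q), 1⟩ : Gr A) = SemidirectProduct.inl (p, 1) *
          SemidirectProduct.inl (1, q) := by
        rw [← map_mul]
        ext <;> simp
      rw [e]
      exact mul_mem (inl_fst_mem y t hy p) (inl_snd_mem y t q hg2)

lemma reversible (a b : Gr A) (ha : a ∈ Pp N) (hb : b ∈ Pp N) :
    ∃ p ∈ Pp N, ∃ q ∈ Pp N, a * p = b * q := by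
  have hla : 0 ≤ level a := by rcases ha with h | ⟨h, -⟩ <;> omega
  have hlb : 0 ≤ level b := by rcases hb with h | ⟨h, -⟩ <;> omega
  refine ⟨a⁻¹ * b * z ^ (level a + 1), Or.inl ?_, z ^ (level a + 1), Or.inl ?_, by group⟩
  · have h1 : level (a⁻¹ * b * z ^ (level a + 1) : Gr A) = level b + 1 := by
      have h2 : level (a⁻¹ : Gr A) = - level a := rfl
      have h3 : level ((z : Gr A) ^ (level a + 1)) = level a + 1 := by
        rw [z, ← map_zpow, ← ofAdd_zsmul]
        simp [level]
      rw [level_mul, level_mul, h2, h3]; ring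
    rw [h1]; omega
  · have h3 : level ((z : Gr A) ^ (level a + 1)) = level a + 1 := by
      rw [z, ← map_zpow, ← ofAdd_zsmul]
      simp [level]
    rw [h3]; omega

lemma quotients (g : Gr A) : ∃ p ∈ Pp N, ∃ q ∈ Pp N, g = p * q⁻¹ := by
  have h3 : ∀ n : ℤ, level ((z : Gr A) ^ n) = n := by
    intro n
    rw [z, ← map_zpow, ← ofAdd_zsmul]
    simp [level]
  refine ⟨g * z ^ (|level g| + 1), Or.inl ?_, z ^ (|level g| + 1), Or.inl ?_, by group⟩
  · rw [level_mul, h3]
    have := neg_abs_le (level g)
    omega
  · rw [h3]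
    have := abs_nonneg (level g)
    omega

/-- the states of the evaluation: two words and two counters -/
abbrev St (j : ℕ) : Type := (Wd j × Wd j) × (ℕ × ℕ)

/-- the value of a state -/
def val (s : St j) : Gr A :=
  SemidirectProduct.inl (FreeGroup.lift y (FreeGroup.mk s.1.1),
    FreeGroup.lift y (FreeGroup.mk s.1.2)) *
  SemidirectProduct.inr (Multiplicative.ofAdd ((s.2.1 : ℤ) - s.2.2))

/-- one step of the evaluation -/
def step {k : ℕ} (T : Fin k × Bool → (Wd j × Wd j) × (Bool × (ℕ × ℕ))) (c : Fin k × Bool)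
    (s : St j) : St j :=
  (if (T c).2.1 = true then (s.1.2, s.1.1) else ((T c).1.1 ++ s.1.1, (T c).1.2 ++ s.1.2),
    ((T c).2.2.1 + s.2.1, (T c).2.2.2 + s.2.2))

lemma primrec_step {k : ℕ} (T : Fin k × Bool → (Wd j × Wd j) × (Bool × (ℕ × ℕ))) :
    Primrec₂ (step T) := by
  have hT : Primrec T := Primrec.dom_finite T
  have hT1 : Primrec (fun p : (Fin k × Bool) × St j => T p.1) := hT.comp Primrec.fst
  refine Primrec.pair (Primrec.ite ?_ ?_ ?_) (Primrec.pair ?_ ?_)
  · exact Primrec.eq.comp (Primrec.fst.comp (Primrec.snd.comp hT1)) (Primrec.const true)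
  · exact Primrec.pair (Primrec.snd.comp (Primrec.fst.comp Primrec.snd))
      (Primrec.fst.comp (Primrec.fst.comp Primrec.snd))
  · exact Primrec.pair
      (Primrec.list_append.comp (Primrec.fst.comp (Primrec.fst.comp hT1))
        (Primrec.fst.comp (Primrec.fst.comp Primrec.snd)))
      (Primrec.list_append.comp (Primrec.snd.comp (Primrec.fst.comp hT1))
        (Primrec.snd.comp (Primrec.fst.comp Primrec.snd)))
  · exact Primrec.nat_add.comp (Primrec.fst.comp (Primrec.snd.comp (Primrec.snd.comp hT1)))
      (Primrec.fst.comp (Primrec.snd.comp Primrec.snd))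
  · exact Primrec.nat_add.comp (Primrec.snd.comp (Primrec.snd.comp (Primrec.snd.comp hT1)))
      (Primrec.snd.comp (Primrec.snd.comp Primrec.snd))

/-- evaluation of a word -/
def ev {k : ℕ} (T : Fin k × Bool → (Wd j × Wd j) × (Bool × (ℕ × ℕ))) (w : Wd k) : St j :=
  w.foldr (step T) (([], []), (0, 0))

lemma primrec_ev {k : ℕ} (T : Fin k × Bool → (Wd j × Wd j) × (Bool × (ℕ × ℕ))) :
    Primrec (ev T) := by
  refine Primrec.list_foldr (f := fun w : Wd k => w) (g := fun _ => (([], []), (0, 0)))
    (h := fun _ p => step T p.1 p.2) Primrec.id (Primrec.const _) ?_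
  exact (primrec_step T).comp (Primrec.fst.comp Primrec.snd) (Primrec.snd.comp Primrec.snd)

/-- the table is correct at a letter -/
def Correct {k : ℕ} (x : Fin k → Gr A) (T : Fin k × Bool → (Wd j × Wd j) × (Bool × (ℕ × ℕ)))
    (c : Fin k × Bool) : Prop :=
  ((T c).2.1 = false ∧ (T c).2.2 = (0, 0) ∧
    cond c.2 (x c.1) (x c.1)⁻¹ = SemidirectProduct.inl (FreeGroup.lift y (FreeGroup.mk (T c).1.1),
      FreeGroup.lift y (FreeGroup.mk (T c).1.2))) ∨
  ((T c).2.1 = true ∧ (T c).2.2 = (1, 0) ∧ cond c.2 (x c.1) (x c.1)⁻¹ = z) ∨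
  ((T c).2.1 = true ∧ (T c).2.2 = (0, 1) ∧ cond c.2 (x c.1) (x c.1)⁻¹ = z⁻¹)

lemma z_inl (p : A × A) : (z : Gr A) * SemidirectProduct.inl p =
    SemidirectProduct.inl (p.2, p.1) * z := by
  rw [← z_conj]; group

lemma zinv_inl (p : A × A) : (z : Gr A)⁻¹ * SemidirectProduct.inl p =
    SemidirectProduct.inl (p.2, p.1) * z⁻¹ := by
  have h := z_conj (p.2, p.1)
  simp only [Prod.mk.eta] at h
  rw [← h]; group

lemma val_step {k : ℕ} (x : Fin k → Gr A)
    (T : Fin k × Bool → (Wd j × Wd j) × (Bool × (ℕ × ℕ))) (c : Fin k × Bool)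
    (hc : Correct y x T c) (s : St j) :
    val y (step T c s) = cond c.2 (x c.1) (x c.1)⁻¹ * val y s := by
  rcases hc with ⟨h1, h2, h3⟩ | ⟨h1, h2, h3⟩ | ⟨h1, h2, h3⟩
  · rw [h3]
    simp only [val, step, h1, h2, Bool.false_eq_true, if_false, zero_add, ← FreeGroup.mul_mk]
    rw [← mul_assoc, ← map_mul SemidirectProduct.inl, Prod.mk_mul_mk, ← map_mul, ← map_mul]
  · rw [h3]
    simp only [val, step, h1, h2, if_true, zero_add]
    rw [← mul_assoc, z_inl, mul_assoc]
    congr 1
    rw [z, ← map_mul, ← ofAdd_add]
    congr 2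
    push_cast; ring
  · rw [h3]
    simp only [val, step, h1, h2, if_true, zero_add]
    rw [← mul_assoc, zinv_inl, mul_assoc]
    congr 1
    rw [z, ← map_inv, ← map_mul, ← ofAdd_neg, ← ofAdd_add]
    congr 2
    push_cast; ring

lemma val_ev {k : ℕ} (x : Fin k → Gr A)
    (T : Fin k × Bool → (Wd j × Wd j) × (Bool × (ℕ × ℕ))) (hT : ∀ c, Correct y x T c)
    (w : Wd k) : val y (ev T w) = FreeGroup.lift x (FreeGroup.mk w) := by
  induction w with
  | nil =>
    have h : FreeGroup.mk ([] : Wd k) = 1 := rfl
    have h' : FreeGroup.mk ([] : Wd j) = 1 := rfl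
    simp only [ev, List.foldr_nil, val, h, h', map_one]
    simp [Prod.mk_one_one]
  | cons c w ih =>
    have h1 : ev T (c :: w) = step T c (ev T w) := rfl
    rw [h1, val_step y x T c (hT c), ih, mk_cons, map_mul, lift_mk_single]

lemma val_eq_one (s : St j) : val y s = 1 ↔
    FreeGroup.lift y (FreeGroup.mk s.1.1) = 1 ∧ FreeGroup.lift y (FreeGroup.mk s.1.2) = 1 ∧
      s.2.1 = s.2.2 := by
  constructor
  · intro h
    have h1 := congrArg SemidirectProduct.left h
    have h2 := congrArg SemidirectProduct.right h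
    simp only [val, SemidirectProduct.mul_left, SemidirectProduct.left_inl,
      SemidirectProduct.right_inl, SemidirectProduct.left_inr, map_one, mul_one,
      SemidirectProduct.one_left, Prod.mk_eq_one] at h1
    simp only [val, SemidirectProduct.mul_right, SemidirectProduct.right_inl,
      SemidirectProduct.right_inr, one_mul, SemidirectProduct.one_right, ofAdd_eq_one] at h2
    exact ⟨h1.1, h1.2, by omega⟩
  · rintro ⟨h1, h2, h3⟩
    simp [val, h1, h2, h3, Prod.mk_one_one]

lemma exists_table {k : ℕ} (e : Idx j l ≃ Fin k) (hy : Function.Surjective (FreeGroup.lift y)) :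
    ∃ T : Fin k × Bool → (Wd j × Wd j) × (Bool × (ℕ × ℕ)),
      ∀ c, Correct y (fun i => gen y t (e.symm i)) T c := by
  have key : ∀ c : Fin k × Bool, ∃ v : (Wd j × Wd j) × (Bool × (ℕ × ℕ)),
      Correct y (fun i => gen y t (e.symm i)) (fun _ => v) c := by
    rintro ⟨i, b⟩
    have base : ∀ p : A × A, gen y t (e.symm i) = SemidirectProduct.inl p →
        ∃ v : (Wd j × Wd j) × (Bool × (ℕ × ℕ)),
          Correct y (fun i => gen y t (e.symm i)) (fun _ => v) (i, b) := by
      intro p hp
      obtain ⟨g1, hg1⟩ := hy (cond b p.1 p.1⁻¹)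
      obtain ⟨g2, hg2⟩ := hy (cond b p.2 p.2⁻¹)
      refine ⟨((g1.toWord, g2.toWord), (false, (0, 0))), Or.inl ⟨rfl, rfl, ?_⟩⟩
      simp only [FreeGroup.mk_toWord, hg1, hg2, hp]
      cases b
      · simp only [cond_false]
        rw [← map_inv]; rfl
      · simp only [cond_true]
    rcases hi : e.symm i with c | m | u
    · exact base _ (by rw [hi]; rfl)
    · exact base _ (by rw [hi]; rfl)
    · cases b
      · exact ⟨(([], []), (true, (0, 1))), Or.inr (Or.inr ⟨rfl, rfl, by simp [hi, gen]⟩)⟩
      · exact ⟨(([], []), (true, (1, 0))), Or.inr (Or.inl ⟨rfl, rfl, by simp [hi, gen]⟩)⟩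
  choose T hT using key
  exact ⟨T, fun c => hT c⟩

lemma wp_decidable {k : ℕ} (e : Idx j l ≃ Fin k) (hy : Function.Surjective (FreeGroup.lift y))
    (hwp : ComputablePred (fun w : Wd j => FreeGroup.lift y (FreeGroup.mk w) = 1)) :
    ComputablePred (fun w : Wd k =>
      FreeGroup.lift (fun i => gen y t (e.symm i)) (FreeGroup.mk w) = 1) := by
  obtain ⟨T, hT⟩ := exists_table y t e hy
  have hev : Computable (ev T) := (primrec_ev T).to_comp
  have h1 : ComputablePred (fun w : Wd k =>
      FreeGroup.lift y (FreeGroup.mk (ev T w).1.1) = 1) :=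
    cp_comp (f := fun w => (ev T w).1.1) hwp
      ((Primrec.fst.comp Primrec.fst).to_comp.comp hev)
  have h2 : ComputablePred (fun w : Wd k =>
      FreeGroup.lift y (FreeGroup.mk (ev T w).1.2) = 1) :=
    cp_comp (f := fun w => (ev T w).1.2) hwp
      ((Primrec.snd.comp Primrec.fst).to_comp.comp hev)
  have h3 : ComputablePred (fun w : Wd k => (ev T w).2.1 = (ev T w).2.2) := by
    have h4 : PrimrecPred (fun s : St j => s.2.1 = s.2.2) :=
      Primrec.eq.comp (Primrec.fst.comp Primrec.snd) (Primrec.snd.comp Primrec.snd)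
    exact cp_comp (f := ev T) h4.computablePred hev
  refine (cp_and h1 (cp_and h2 h3)).of_eq ?_
  intro w
  rw [← val_ev y _ T hT, val_eq_one]

end construction

/-- Generators of a direct product of two copies of a free group. -/
def yy (m : ℕ) (i : Fin (m + m)) : FreeGroup (Fin m) × FreeGroup (Fin m) :=
  Sum.elim (fun i => (FreeGroup.of i, 1)) (fun i => (1, FreeGroup.of i)) (finSumFinEquiv.symm i)

lemma yy_surj (m : ℕ) : Function.Surjective (FreeGroup.lift (yy m)) := by
  have h1 : ∀ g : FreeGroup (Fin m), (g, 1) ∈ (FreeGroup.lift (yy m)).range := by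
    intro g
    induction g using FreeGroup.induction_on with
    | C1 => exact one_mem _
    | of i => exact ⟨FreeGroup.of (finSumFinEquiv (Sum.inl i)), by
      rw [FreeGroup.lift_apply_of, yy, Equiv.symm_apply_apply]; rfl⟩
    | inv_of i h =>
      have := inv_mem h
      simpa using this
    | mul x y hx hy =>
      have := mul_mem hx hy
      simpa using this
  have h2 : ∀ g : FreeGroup (Fin m), (1, g) ∈ (FreeGroup.lift (yy m)).range := by
    intro g
    induction g using FreeGroup.induction_on with
    | C1 => exact one_mem _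
    | of i => exact ⟨FreeGroup.of (finSumFinEquiv (Sum.inr i)), by
      rw [FreeGroup.lift_apply_of, yy, Equiv.symm_apply_apply]; rfl⟩
    | inv_of i h =>
      have := inv_mem h
      simpa using this
    | mul x y hx hy =>
      have := mul_mem hx hy
      simpa using this
  rintro ⟨a, b⟩
  have := mul_mem (h1 a) (h2 b)
  simpa using this

lemma yy_wp (m : ℕ) :
    ComputablePred (fun w : Wd (m + m) => FreeGroup.lift (yy m) (FreeGroup.mk w) = 1) := by
  have hF : ComputablePred (fun w : Wd m =>
      FreeGroup.lift (FreeGroup.of (α := Fin m)) (FreeGroup.mk w) = 1) := by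
    refine (primrecPred_one m).computablePred.of_eq ?_
    intro w
    rw [FreeGroup.lift_of_apply]
  have hs : Function.Surjective (FreeGroup.lift (FreeGroup.of (α := Fin m))) := by
    intro g; exact ⟨g, FreeGroup.lift_of_apply g⟩
  have h1 := wp_transfer (FreeGroup.of (α := Fin m)) hs (fun i => (yy m i).1) hF
  have h2 := wp_transfer (FreeGroup.of (α := Fin m)) hs (fun i => (yy m i).2) hF
  refine (cp_and h1 h2).of_eq ?_
  intro w
  have e1 : FreeGroup.lift (fun i => (yy m i).1) =
      (MonoidHom.fst _ _).comp (FreeGroup.lift (yy m)) := by ext i; simp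
  have e2 : FreeGroup.lift (fun i => (yy m i).2) =
      (MonoidHom.snd _ _).comp (FreeGroup.lift (yy m)) := by ext i; simp
  rw [e1, e2]
  exact Prod.mk_eq_one.symm

/-- There are a group `G` and finitely many elements `x 0, ..., x (k-1)` of `G` such that the
submonoid `P` they generate is right reversible, `G = P P⁻¹`, the word problem of `G` is solvable
and the membership problem of `P` in `G` is undecidable. -/
theorem result : ∃ (G : Type) (_ : Group G) (k : ℕ) (x : Fin k → G),
    (∀ a ∈ Submonoid.closure (Set.range x), ∀ b ∈ Submonoid.closure (Set.range x),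
      ∃ p ∈ Submonoid.closure (Set.range x), ∃ q ∈ Submonoid.closure (Set.range x),
        a * p = b * q) ∧
    (∀ g : G, ∃ p ∈ Submonoid.closure (Set.range x), ∃ q ∈ Submonoid.closure (Set.range x),
      g = p * q⁻¹) ∧
    ComputablePred (fun w : List (Fin k × Bool) => FreeGroup.lift x (FreeGroup.mk w) = 1) ∧
    ¬ ComputablePred (fun w : List (Fin k × Bool) =>
      FreeGroup.lift x (FreeGroup.mk w) ∈ Submonoid.closure (Set.range x)) := by
  obtain ⟨m, l, t, W, hW, hu⟩ := mikhailova
  obtain ⟨k, ⟨e⟩⟩ := Finite.exists_equiv_fin (Idx (m + m) l)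
  have hrange : Set.range (fun i => gen (yy m) t (e.symm i)) = Set.range (gen (yy m) t) := by
    ext g
    constructor
    · rintro ⟨i, rfl⟩; exact ⟨_, rfl⟩
    · rintro ⟨i, rfl⟩; exact ⟨e i, by simp⟩
  refine ⟨Gr (FreeGroup (Fin m) × FreeGroup (Fin m)), inferInstance, k,
    fun i => gen (yy m) t (e.symm i), ?_, ?_, ?_, ?_⟩
  · rw [hrange, closure_gen (yy m) t (yy_surj m)]
    exact fun a ha b hb => reversible _ a b ha hb
  · rw [hrange, closure_gen (yy m) t (yy_surj m)]
    exact fun g => quotients _ g
  · exact wp_decidable (yy m) t e (yy_surj m) (yy_wp m)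
  · intro hc
    apply hu
    rw [hrange, closure_gen (yy m) t (yy_surj m)] at hc
    -- the words
    let sub : Fin m × Bool → Wd k := fun c =>
      [(e (Sum.inl (finSumFinEquiv (Sum.inl c.1), true)), c.2)]
    let zz : Fin k := e (Sum.inr (Sum.inr ()))
    let V : ℕ → Wd k := fun n => (zz, true) :: (subst sub (W n) ++ [(zz, false)])
    have hV : Computable V := by
      have h1 : Computable (fun n => subst sub (W n)) := (primrec_subst sub).to_comp.comp hW
      have h2 : Primrec (fun w : Wd k => ((zz, true) :: (w ++ [(zz, false)]) : Wd k)) :=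
        Primrec.list_cons.comp (Primrec.const _)
          (Primrec.list_append.comp Primrec.id (Primrec.const _))
      exact h2.to_comp.comp h1
    refine (cp_comp hc hV).of_eq ?_
    intro n
    have hsub : ∀ w : Wd m, FreeGroup.lift (fun i => gen (yy m) t (e.symm i))
        (FreeGroup.mk (subst sub w)) = SemidirectProduct.inl ((FreeGroup.mk w, 1), 1) := by
      intro w
      induction w with
      | nil => rfl
      | cons c w ih =>
        have h1 : subst sub (c :: w) = sub c ++ subst sub w := rfl
        rw [h1, ← FreeGroup.mul_mk, map_mul, ih, mk_cons c w]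
        have h2 : FreeGroup.lift (fun i => gen (yy m) t (e.symm i)) (FreeGroup.mk (sub c)) =
            SemidirectProduct.inl ((FreeGroup.mk [c], 1), 1) := by
          obtain ⟨i, b⟩ := c
          rw [lift_mk_single]
          simp only [Equiv.symm_apply_apply, gen, yy, cond_true, Sum.elim_inl]
          cases b
          · simp only [cond_false]
            rw [← map_inv]; rfl
          · rfl
        rw [h2, ← map_mul]
        rfl
    have hval : FreeGroup.lift (fun i => gen (yy m) t (e.symm i)) (FreeGroup.mk (V n)) =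
        SemidirectProduct.inl (1, (FreeGroup.mk (W n), 1)) := by
      have h1 : FreeGroup.mk (V n) = FreeGroup.mk [(zz, true)] *
          (FreeGroup.mk (subst sub (W n)) * FreeGroup.mk [(zz, false)]) := by
        rw [FreeGroup.mul_mk, FreeGroup.mul_mk]; rfl
      rw [h1, map_mul, map_mul, hsub, lift_mk_single, lift_mk_single]
      simp only [cond_true, cond_false, zz, Equiv.symm_apply_apply, gen]
      rw [← mul_assoc, z_conj]
    rw [hval]
    constructor
    · rintro (h | ⟨-, h⟩)
      · exact absurd h (lt_irrefl _)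
      · exact h
    · intro h
      exact Or.inr ⟨rfl, h⟩

end Pool.Agent.Results.MP_91a774_al.Undecidable
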